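import Pool.Agent.L7h17.OC.Stm

/-!
# Project OC (MP_b7f146_ag), part SEVB: seven zeros, real case
-/

set_option autoImplicit false

namespace Pool.Agent.L7h73.OC

open Pool.Agent.L7h17.OC

theorem three_roots (Q : Polynomial ℝ) (hd : Q.natDegree ≤ 2) (hc : Q.coeff 2 ≠ 0) (u v w : ℝ)
    (huv : u < v) (hvw : v < w) (hu : Q.eval u = 0) (hv : Q.eval v = 0) (hw : Q.eval w = 0) :
    False := by
  have h0 : Q ≠ 0 := by
    intro h
    rw [h] at hc
    simp at hc
  have hsub : ({u, v, w} : Finset ℝ) ⊆ Q.roots.toFinset := by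
    intro z hz
    simp only [Finset.mem_insert, Finset.mem_singleton] at hz
    rw [Multiset.mem_toFinset, Polynomial.mem_roots h0]
    rcases hz with h | h | h <;> (subst h; assumption)
  have hcard : ({u, v, w} : Finset ℝ).card = 3 := by
    rw [Finset.card_eq_three]
    exact ⟨u, v, w, huv.ne, (huv.trans hvw).ne, hvw.ne, rfl⟩
  have h1 := Finset.card_le_card hsub
  have h2 := Multiset.toFinset_card_le Q.roots
  have h3 := Polynomial.card_roots' Q
  omega

/-- [SEVB] Seven zeros, real case. -/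
theorem s_SEVB (hGRP : S_GRP) : S_SEVB := by
  intro p s α β x hdeg hc4 hs hβ him hne hx hval
  have hβn : 0 < ‖β‖ := norm_pos_iff.mpr hβ
  obtain ⟨γ, hγ⟩ : ∃ γ : ℝ, α = γ * β := by
    refine ⟨((starRingEnd ℂ) β * α).re / ‖β‖ ^ 2, ?_⟩
    have h1 : (starRingEnd ℂ) β * α = ((((starRingEnd ℂ) β * α).re : ℝ) : ℂ) := by
      apply Complex.ext
      · simp
      · simpa using him
    have h2 : β * (starRingEnd ℂ) β = ((‖β‖ ^ 2 : ℝ) : ℂ) := by
      rw [Complex.mul_conj, Complex.normSq_eq_norm_sq]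
    have h3 : ((‖β‖ ^ 2 : ℝ) : ℂ) ≠ 0 := by
      exact_mod_cast (pow_pos hβn 2).ne'
    have h4 : ((‖β‖ ^ 2 : ℝ) : ℂ) * α = ((((starRingEnd ℂ) β * α).re : ℝ) : ℂ) * β := by
      rw [← h2, ← h1]
      ring
    rw [Complex.ofReal_div, div_mul_eq_mul_div, eq_div_iff h3, mul_comm α, h4]
  have hnorm : ∀ t : ℝ, ‖β + α * (t : ℂ)‖ = ‖β‖ * |1 + γ * t| := by
    intro t
    have : β + α * (t : ℂ) = β * ((1 + γ * t : ℝ) : ℂ) := by
      rw [hγ]
      push_cast
      ring
    rw [this, norm_mul, Complex.norm_real, Real.norm_eq_abs]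
  have hnz : ∀ i < 7, 1 + γ * x i ≠ 0 := by
    intro i hi h
    have h1 := (hval i hi).2
    rw [hnorm, h, abs_zero, mul_zero] at h1
    have h2 : p.eval (x i) = 0 := by
      rcases hs with h' | h' <;> (subst h'; linarith)
    refine hne (x i) (hval i hi).1 h2 ?_
    have : β + α * (x i : ℂ) = β * ((1 + γ * x i : ℝ) : ℂ) := by
      rw [hγ]
      push_cast
      ring
    rw [this, h]
    simp
  -- the polynomial
  obtain ⟨G, hG⟩ : ∃ G : Polynomial ℝ, G = Polynomial.C s * p := ⟨_, rfl⟩
  have hs0 : s ≠ 0 := by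
    rcases hs with h | h <;> (rw [h]; norm_num)
  have hGd : G.natDegree ≤ 4 := by
    rw [hG]
    exact (Polynomial.natDegree_C_mul_le _ _).trans hdeg
  have hGc : G.coeff 4 ≠ 0 := by
    rw [hG, Polynomial.coeff_C_mul]
    exact mul_ne_zero hs0 hc4
  have hQd : G.derivative.derivative.natDegree ≤ 2 := by
    have h1 := Polynomial.natDegree_derivative_le G
    have h2 := Polynomial.natDegree_derivative_le G.derivative
    omega
  have hQc : G.derivative.derivative.coeff 2 ≠ 0 := by
    rw [Polynomial.coeff_derivative, Polynomial.coeff_derivative]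
    norm_num
    exact hGc
  have hpos : ∀ i < 7, 0 < 1 + γ * x i → G.eval (x i) = ‖β‖ + ‖β‖ * γ * x i := by
    intro i hi h
    have h1 := (hval i hi).2
    rw [hnorm, abs_of_pos h] at h1
    rw [hG, Polynomial.eval_mul, Polynomial.eval_C, h1]
    ring
  have hneg : ∀ i < 7, ¬ 0 < 1 + γ * x i → G.eval (x i) = -‖β‖ + (-‖β‖ * γ) * x i := by
    intro i hi h
    have h1 := (hval i hi).2
    have h2 : 1 + γ * x i < 0 := lt_of_le_of_ne (not_lt.mp h) (hnz i hi)
    rw [hnorm, abs_of_neg h2] at h1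
    rw [hG, Polynomial.eval_mul, Polynomial.eval_C, h1]
    ring
  have hmono : ∀ i < 6, 0 < 1 + γ * x (i + 1) → 0 < 1 + γ * x i := by
    intro i hi h
    rcases le_or_gt 0 γ with h0 | h0
    · have := (hval i (by omega)).1
      positivity
    · have := hx i hi
      nlinarith
  have hx' : ∀ j n : ℕ, j + n ≤ 7 → ∀ i, i + 1 < n → x (j + i) < x (j + (i + 1)) := by
    intro j n hjn i hi
    exact hx (j + i) (by omega)
  -- five points of one type
  have five : ∀ (j : ℕ) (l₀ l₁ : ℝ), j + 5 ≤ 7 →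
      (∀ i < 5, G.eval (x (j + i)) = l₀ + l₁ * x (j + i)) → False := by
    intro j l₀ l₁ hj h
    obtain ⟨y, hy1, hy2⟩ := hGRP G l₀ l₁ 5 (fun i => x (j + i)) (by norm_num)
      (hx' j 5 hj) h
    exact three_roots _ hQd hQc (y 0) (y 1) (y 2) (hy1 0 (by norm_num)) (hy1 1 (by norm_num))
      (hy2 0 (by norm_num)).2.2 (hy2 1 (by norm_num)).2.2 (hy2 2 (by norm_num)).2.2
  by_cases h4 : 0 < 1 + γ * x 4
  · have h3 := hmono 3 (by norm_num) h4
    have h2 := hmono 2 (by norm_num) h3
    have h1 := hmono 1 (by norm_num) h2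
    have h0 := hmono 0 (by norm_num) h1
    refine five 0 ‖β‖ (‖β‖ * γ) (by norm_num) ?_
    intro i hi
    rw [zero_add]
    interval_cases i
    · exact hpos 0 (by norm_num) h0
    · exact hpos 1 (by norm_num) h1
    · exact hpos 2 (by norm_num) h2
    · exact hpos 3 (by norm_num) h3
    · exact hpos 4 (by norm_num) h4
  have h5 : ¬ 0 < 1 + γ * x 5 := fun h => h4 (hmono 4 (by norm_num) h)
  have h6 : ¬ 0 < 1 + γ * x 6 := fun h => h5 (hmono 5 (by norm_num) h)
  by_cases h2 : 0 < 1 + γ * x 2
  · have h1 := hmono 1 (by norm_num) h2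
    have h0 := hmono 0 (by norm_num) h1
    by_cases h3 : 0 < 1 + γ * x 3
    · obtain ⟨y, hy1, hy2⟩ := hGRP G ‖β‖ (‖β‖ * γ) 4 (fun i => x (0 + i)) (by norm_num)
        (hx' 0 4 (by norm_num)) (by
          intro i hi
          simp only [zero_add]
          interval_cases i
          · exact hpos 0 (by norm_num) h0
          · exact hpos 1 (by norm_num) h1
          · exact hpos 2 (by norm_num) h2
          · exact hpos 3 (by norm_num) h3)
      obtain ⟨z, hz1, hz2⟩ := hGRP G (-‖β‖) (-‖β‖ * γ) 3 (fun i => x (4 + i)) (by norm_num)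
        (hx' 4 3 (by norm_num)) (by
          intro i hi
          interval_cases i
          · exact hneg 4 (by norm_num) h4
          · exact hneg 5 (by norm_num) h5
          · exact hneg 6 (by norm_num) h6)
      have e1 := (hy2 1 (by norm_num)).2.1
      have e2 := (hz2 0 (by norm_num)).1
      have e3 := hx 3 (by norm_num)
      simp only [zero_add, add_zero] at e1 e2
      norm_num at e1 e2 e3
      exact three_roots _ hQd hQc (y 0) (y 1) (z 0) (hy1 0 (by norm_num)) (by linarith)
        (hy2 0 (by norm_num)).2.2 (hy2 1 (by norm_num)).2.2 (hz2 0 (by norm_num)).2.2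
    · obtain ⟨y, hy1, hy2⟩ := hGRP G ‖β‖ (‖β‖ * γ) 3 (fun i => x (0 + i)) (by norm_num)
        (hx' 0 3 (by norm_num)) (by
          intro i hi
          simp only [zero_add]
          interval_cases i
          · exact hpos 0 (by norm_num) h0
          · exact hpos 1 (by norm_num) h1
          · exact hpos 2 (by norm_num) h2)
      obtain ⟨z, hz1, hz2⟩ := hGRP G (-‖β‖) (-‖β‖ * γ) 4 (fun i => x (3 + i)) (by norm_num)
        (hx' 3 4 (by norm_num)) (by
          intro i hi
          interval_cases i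
          · exact hneg 3 (by norm_num) h3
          · exact hneg 4 (by norm_num) h4
          · exact hneg 5 (by norm_num) h5
          · exact hneg 6 (by norm_num) h6)
      have e1 := (hy2 0 (by norm_num)).2.1
      have e2 := (hz2 0 (by norm_num)).1
      have e3 := hx 2 (by norm_num)
      simp only [zero_add, add_zero] at e1 e2
      norm_num at e1 e2 e3
      exact three_roots _ hQd hQc (y 0) (z 0) (z 1) (by linarith) (hz1 0 (by norm_num))
        (hy2 0 (by norm_num)).2.2 (hz2 0 (by norm_num)).2.2 (hz2 1 (by norm_num)).2.2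
  · have h3 : ¬ 0 < 1 + γ * x 3 := fun h => h2 (hmono 2 (by norm_num) h)
    refine five 2 (-‖β‖) (-‖β‖ * γ) (by norm_num) ?_
    intro i hi
    interval_cases i
    · exact hneg 2 (by norm_num) h2
    · exact hneg 3 (by norm_num) h3
    · exact hneg 4 (by norm_num) h4
    · exact hneg 5 (by norm_num) h5
    · exact hneg 6 (by norm_num) h6

end Pool.Agent.L7h73.OC
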